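import Mathlib

/-!
MP_c0ff68_co : the gap factor between Avoider-Forcer and Maker-Breaker games is at most two.
-/

namespace Pool.Agent.Results.MP_c0ff68_co.GapAtMostTwo

/-- `Ensures goal mine n S T`: two players alternately claim one unclaimed element of the finite
board `V`; `n` elements are still unclaimed, our player has claimed `S`, the other player has
claimed `T`, and it is our player's turn iff `mine = true`.  The proposition says that our player
has a strategy guaranteeing `goal S' T'` for the final division `(S', T')` of the board. -/
def Ensures {V : Type} [DecidableEq V] (goal : Finset V → Finset V → Prop) :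
    Bool → ℕ → Finset V → Finset V → Prop
  | _, 0, S, T => goal S T
  | true, n + 1, S, T => ∃ x, x ∉ S ∧ x ∉ T ∧ Ensures goal false n (insert x S) T
  | false, n + 1, S, T => ∀ x, x ∉ S → x ∉ T → Ensures goal true n S (insert x T)

/-- Forcer, moving first iff `first = true`, can force Avoider to claim a whole winning set. -/
def ForcerWins {V : Type} [Fintype V] [DecidableEq V] (F : Finset (Finset V))
    (first : Bool) : Prop :=
  Ensures (fun _ T => ∃ A ∈ F, A ⊆ T) first (Fintype.card V) ∅ ∅

/-- Breaker, moving first iff `first = true`, can ensure that Maker's final set `M` satisfies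
`|M ∩ A| ≤ |A| / c` for every winning set `A`. -/
def BreakerHolds {V : Type} [Fintype V] [DecidableEq V] (F : Finset (Finset V)) (c : ℝ)
    (first : Bool) : Prop :=
  Ensures (fun _ T => ∀ A ∈ F, ((T ∩ A).card : ℝ) ≤ (A.card : ℝ) / c) first
    (Fintype.card V) ∅ ∅

/-- `F` is a hypergraph (all winning sets nonempty) with gap factor at least `c`. -/
def GapAtLeast {V : Type} [Fintype V] [DecidableEq V] (F : Finset (Finset V)) (c : ℝ) : Prop :=
  (∀ A ∈ F, A.Nonempty) ∧ 1 ≤ c ∧ ∀ first : Bool, ForcerWins F first ∧ BreakerHolds F c first

/-- The supremum `c*` of the gap factors of all finite hypergraphs, as an extended real. -/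
noncomputable def cStar : EReal :=
  sSup {y : EReal | ∃ (n : ℕ) (F : Finset (Finset (Fin n))) (c : ℝ),
    GapAtLeast F c ∧ y = (c : EReal)}

/-- Two strategies of the two roles can be played against each other. -/
lemma play {V : Type} [Fintype V] [DecidableEq V] (g h : Finset V → Finset V → Prop) :
    ∀ (n : ℕ) (S T : Finset V) (b : Bool), Disjoint S T → S.card + T.card + n = Fintype.card V →
      Ensures g b n S T → Ensures h (!b) n T S →
      ∃ S' T' : Finset V, Disjoint S' T' ∧ S' ∪ T' = Finset.univ ∧ g S' T' ∧ h T' S' := by
  intro n
  induction n with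
  | zero =>
    intro S T b hd hc hg hh
    refine ⟨S, T, hd, ?_, by cases b <;> simpa [Ensures] using hg,
      by cases b <;> simpa [Ensures] using hh⟩
    apply Finset.eq_univ_of_card
    rw [Finset.card_union_of_disjoint hd]
    omega
  | succ n ih =>
    intro S T b hd hc hg hh
    cases b with
    | true =>
      simp only [Bool.not_true] at hh
      obtain ⟨x, hxS, hxT, hx⟩ := hg
      have hh' := hh x hxT hxS
      refine ih (insert x S) T false ?_ ?_ hx hh'
      · rw [Finset.disjoint_insert_left]; exact ⟨hxT, hd⟩
      · rw [Finset.card_insert_of_notMem hxS]; omega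
    | false =>
      simp only [Bool.not_false] at hh
      obtain ⟨x, hxT, hxS, hx⟩ := hh
      have hg' := hg x hxS hxT
      refine ih S (insert x T) true ?_ ?_ hg' hx
      · rw [Finset.disjoint_insert_right]; exact ⟨hxS, hd⟩
      · rw [Finset.card_insert_of_notMem hxT]; omega

/-- Every finite hypergraph with gap factor at least `c` has `c ≤ 2`. -/
lemma gap_le_two {V : Type} [Fintype V] [DecidableEq V] (F : Finset (Finset V)) (c : ℝ)
    (h : GapAtLeast F c) : c ≤ 2 := by
  obtain ⟨hne, hc1, hall⟩ := h
  have hcpos : 0 < c := by linarith
  -- `F` is nonempty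
  obtain ⟨S0, T0, -, -, ⟨A, hA, -⟩, -⟩ :=
    play _ (fun _ _ => True) (Fintype.card V) ∅ ∅ true (by simp) (by simp) (hall true).1
      (by
        have : ∀ (n : ℕ) (b : Bool) (S T : Finset V), Disjoint S T →
            S.card + T.card + n = Fintype.card V →
            Ensures (fun _ _ => True) b n S T := by
          intro n
          induction n with
          | zero => intro b S T _ _; cases b <;> simp [Ensures]
          | succ n ih =>
            intro b S T hd hcard
            cases b with
            | false =>
              intro x hxS hxT
              apply ih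
              · rw [Finset.disjoint_insert_right]; exact ⟨hxS, hd⟩
              · rw [Finset.card_insert_of_notMem hxT]; omega
            | true =>
              have : ∃ x, x ∉ S ∪ T := by
                by_contra hcon
                push Not at hcon
                have : S ∪ T = Finset.univ := Finset.eq_univ_iff_forall.mpr hcon
                have h2 := congrArg Finset.card this
                rw [Finset.card_union_of_disjoint hd, Finset.card_univ] at h2
                omega
              obtain ⟨x, hx⟩ := this
              rw [Finset.mem_union, not_or] at hx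
              refine ⟨x, hx.1, hx.2, ih _ _ _ ?_ ?_⟩
              · rw [Finset.disjoint_insert_left]; exact ⟨hx.2, hd⟩
              · rw [Finset.card_insert_of_notMem hx.1]; omega
        exact this _ _ _ _ (by simp) (by simp))
  obtain ⟨S, T, hd, hu, h1, h2⟩ :=
    play _ _ (Fintype.card V) ∅ ∅ true (by simp) (by simp) (hall true).2 (hall false).2
  have h1A := h1 A hA
  have h2A := h2 A hA
  have hcard : (T ∩ A).card + (S ∩ A).card = A.card := by
    have : (T ∩ A) ∪ (S ∩ A) = A := by
      rw [← Finset.union_inter_distrib_right, Finset.union_comm, hu, Finset.univ_inter]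
    have hd' : Disjoint (T ∩ A) (S ∩ A) :=
      Finset.disjoint_of_subset_left Finset.inter_subset_left
        (Finset.disjoint_of_subset_right Finset.inter_subset_left hd.symm)
    rw [← Finset.card_union_of_disjoint hd', this]
  have hApos : (0 : ℝ) < A.card := by
    exact_mod_cast (hne A hA).card_pos
  have hsum : (A.card : ℝ) ≤ 2 * ((A.card : ℝ) / c) := by
    have : ((T ∩ A).card : ℝ) + ((S ∩ A).card : ℝ) = A.card := by exact_mod_cast hcard
    linarith
  have h3 : (A.card : ℝ) * c ≤ 2 * A.card := by
    have := mul_le_mul_of_nonneg_right hsum hcpos.le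
    rwa [mul_assoc, div_mul_cancel₀ _ hcpos.ne'] at this
  nlinarith

theorem result :
    (∀ (V : Type) [Fintype V] [DecidableEq V] (F : Finset (Finset V)) (c : ℝ),
      GapAtLeast F c → c ≤ 2) ∧ cStar ≤ 2 := by
  refine ⟨fun V _ _ F c h => gap_le_two F c h, ?_⟩
  apply sSup_le
  rintro y ⟨n, F, c, h, rfl⟩
  have h2 : ((2 : ℝ) : EReal) = 2 := rfl
  rw [← h2]
  exact EReal.coe_le_coe_iff.mpr (gap_le_two F c h)

end Pool.Agent.Results.MP_c0ff68_co.GapAtMostTwo
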